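import Mathlib

open MeasureTheory Set Filter Topology

namespace Q47Khin

/-- the open arc `(α, α + δ)` of the circle `ℝ/ℤ`. -/
def arc (α δ : ℝ) : Set UnitAddCircle := (fun y : ℝ => (y : UnitAddCircle)) '' Ioo α (α + δ)

lemma isOpen_arc (α δ : ℝ) : IsOpen (arc α δ) :=
  QuotientAddGroup.isOpenMap_coe _ isOpen_Ioo

lemma coe_mem_arc {α δ y : ℝ} :
    (y : UnitAddCircle) ∈ arc α δ ↔ ∃ m : ℤ, α < y - m ∧ y - m < α + δ := by
  constructor
  · rintro ⟨z, hz, hzy⟩
    have h : ((y - z : ℝ) : UnitAddCircle) = 0 := by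
      rw [AddCircle.coe_sub]
      simp only at hzy
      rw [hzy, sub_self]
    obtain ⟨m, hm⟩ := (AddCircle.coe_eq_zero_iff (1 : ℝ)).1 h
    refine ⟨m, ?_⟩
    have : y - m = z := by
      have : (m : ℝ) = y - z := by simpa using hm
      linarith
    rw [this]
    exact hz
  · rintro ⟨m, hm⟩
    refine ⟨y - m, hm, ?_⟩
    have h : ((m : ℝ) : UnitAddCircle) = 0 := by
      rw [AddCircle.coe_eq_zero_iff]
      exact ⟨m, by simp⟩
    simp only [AddCircle.coe_sub, h, sub_zero]

lemma nsmul_coe_mem_arc {α δ y : ℝ} {n : ℕ} :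
    n • (y : UnitAddCircle) ∈ arc α δ ↔ ∃ m : ℤ, α < n * y - m ∧ n * y - m < α + δ := by
  rw [← coe_mem_arc]
  have : ((n * y : ℝ) : UnitAddCircle) = n • (y : UnitAddCircle) := by
    rw [← AddCircle.coe_nsmul, nsmul_eq_mul]
  rw [this]

/-- volume of a measurable subset of the circle in terms of `(0,1]`. -/
lemma real_volume_eq {U : Set UnitAddCircle} (hU : MeasurableSet U) :
    volume.real U = volume.real ({y : ℝ | (y : UnitAddCircle) ∈ U} ∩ Ioc 0 1) := by
  have h := AddCircle.add_projection_respects_measure 1 0 hU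
  rw [zero_add] at h
  unfold Measure.real
  rw [h]
  rfl

lemma volume_arc {α δ : ℝ} (hα : 0 ≤ α) (hδ : 0 ≤ δ) (h1 : α + δ ≤ 1) :
    volume.real (arc α δ) = δ := by
  rw [real_volume_eq (isOpen_arc α δ).measurableSet]
  have : {y : ℝ | (y : UnitAddCircle) ∈ arc α δ} ∩ Ioc 0 1 = Ioo α (α + δ) := by
    ext y
    simp only [mem_inter_iff, mem_ofPred_eq, coe_mem_arc, mem_Ioc, mem_Ioo]
    constructor
    · rintro ⟨⟨m, hm1, hm2⟩, h0, h1'⟩
      have hm : m = 0 := by
        have h3 : (m : ℝ) < 1 := by linarith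
        have h4 : (-1 : ℝ) < m := by linarith
        have h5 : m < 1 := by exact_mod_cast h3
        have h6 : -1 < m := by exact_mod_cast h4
        omega
      subst hm
      simp only [Int.cast_zero, sub_zero] at hm1 hm2
      exact ⟨hm1, hm2⟩
    · rintro ⟨h1', h2⟩
      exact ⟨⟨0, by simpa using h1', by simpa using h2⟩, by linarith, by linarith⟩
  rw [this]
  simp only [Measure.real, Real.volume_Ioo]
  rw [ENNReal.toReal_ofReal (by linarith)]
  ring

lemma measurePreserving_nsmul' {n : ℕ} (hn : 0 < n) :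
    MeasurePreserving (fun y : UnitAddCircle => n • y) volume volume := by
  have h := Measure.measurePreserving_zsmul (volume : Measure UnitAddCircle) (n := (n : ℤ))
    (by exact_mod_cast hn.ne')
  simpa using h

/-- The set `{x : λ x ∈ arc}`. -/
def S (α δ : ℝ) (n : ℕ) : Set UnitAddCircle := {x | n • x ∈ arc α δ}

lemma isOpen_S (α δ : ℝ) (n : ℕ) : IsOpen (S α δ n) :=
  (isOpen_arc α δ).preimage (continuous_nsmul n)

lemma volume_S {α δ : ℝ} (hα : 0 ≤ α) (hδ : 0 ≤ δ) (h1 : α + δ ≤ 1) {n : ℕ} (hn : 0 < n) :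
    volume.real (S α δ n) = δ := by
  have h := (measurePreserving_nsmul' hn).measure_preimage
    (isOpen_arc α δ).measurableSet.nullMeasurableSet
  have h2 : volume.real (S α δ n) = volume.real (arc α δ) := by
    unfold Measure.real
    rw [← h]
    rfl
  rw [h2, volume_arc hα hδ h1]

/-- Points of an interval hitting the arc under multiplication by `b`. -/
lemma volume_interval_hit {α δ u v b : ℝ} (hδ : 0 ≤ δ) (hδ1 : δ ≤ 1) (huv : u ≤ v) (hb : 0 < b) :
    volume.real ({x : ℝ | ∃ m : ℤ, α < b * x - m ∧ b * x - m < α + δ} ∩ Ioo u v) ≤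
      (v - u) * δ + 2 * δ / b := by
  classical
  set F : Finset ℤ := Finset.Icc ⌈b * u - α - δ⌉ ⌊b * v - α⌋ with hF
  have hsub : ({x : ℝ | ∃ m : ℤ, α < b * x - m ∧ b * x - m < α + δ} ∩ Ioo u v) ⊆
      ⋃ m ∈ F, Ioo ((m + α) / b) ((m + α + δ) / b) := by
    rintro x ⟨⟨m, h1, h2⟩, h3, h4⟩
    have hbu : b * u < b * x := by nlinarith
    have hbv : b * x < b * v := by nlinarith
    simp only [mem_iUnion, exists_prop]
    refine ⟨m, ?_, ?_, ?_⟩
    · rw [hF, Finset.mem_Icc]
      constructor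
      · apply Int.ceil_le.2; linarith
      · apply Int.le_floor.2; linarith
    · rw [div_lt_iff₀ hb]; linarith
    · rw [lt_div_iff₀ hb]; linarith
  have hfin : volume (⋃ m ∈ F, Ioo ((m + α) / b) ((m + α + δ) / b)) ≠ ⊤ := by
    refine (measure_biUnion_finset_le _ _).trans_lt ?_ |>.ne
    exact ENNReal.sum_lt_top.2 fun i _ => by rw [Real.volume_Ioo]; exact ENNReal.ofReal_lt_top
  refine (measureReal_mono hsub hfin).trans ?_
  refine (measureReal_biUnion_finset_le _ _).trans ?_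
  have hterm : ∀ m ∈ F, volume.real (Ioo (((m : ℤ) + α) / b) ((m + α + δ) / b)) = δ / b := by
    intro m _
    simp only [Measure.real, Real.volume_Ioo]
    have : (m + α + δ) / b - (m + α) / b = δ / b := by field_simp; ring
    rw [this, ENNReal.toReal_ofReal (by positivity)]
  rw [Finset.sum_congr rfl hterm, Finset.sum_const, nsmul_eq_mul]
  have hcard : (F.card : ℝ) ≤ b * (v - u) + 2 := by
    rw [hF, Int.card_Icc]
    have h1 : ((⌊b * v - α⌋ : ℤ) : ℝ) ≤ b * v - α := Int.floor_le _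
    have h2 : b * u - α - δ ≤ ((⌈b * u - α - δ⌉ : ℤ) : ℝ) := Int.le_ceil _
    have h3 : 0 ≤ b * (v - u) + 2 := by nlinarith
    have h4 : ((⌊b * v - α⌋ + 1 - ⌈b * u - α - δ⌉ : ℤ) : ℝ) ≤ b * (v - u) + 2 := by
      push_cast
      nlinarith
    rcases le_or_gt 0 (⌊b * v - α⌋ + 1 - ⌈b * u - α - δ⌉) with h | h
    · have : (((⌊b * v - α⌋ + 1 - ⌈b * u - α - δ⌉).toNat : ℤ) : ℝ) =
        ((⌊b * v - α⌋ + 1 - ⌈b * u - α - δ⌉ : ℤ) : ℝ) := by rw [Int.toNat_of_nonneg h]
      rw [← this] at h4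
      exact_mod_cast h4
    · rw [Int.toNat_of_nonpos h.le]
      simpa using h3
  have : (F.card : ℝ) * (δ / b) ≤ (b * (v - u) + 2) * (δ / b) :=
    mul_le_mul_of_nonneg_right hcard (by positivity)
  refine this.trans (le_of_eq ?_)
  field_simp

lemma volume_S_inter {α δ : ℝ} (hα : 0 < α) (hδ : 0 ≤ δ) (h1 : α + δ ≤ 1) {a b : ℕ}
    (ha : 0 < a) (hb : 0 < b) :
    volume.real (S α δ a ∩ S α δ b) ≤ δ ^ 2 + 2 * δ * (a / b) := by
  classical
  have ha' : (0 : ℝ) < a := by exact_mod_cast ha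
  have hb' : (0 : ℝ) < b := by exact_mod_cast hb
  rw [real_volume_eq ((isOpen_S α δ a).inter (isOpen_S α δ b)).measurableSet]
  have hsub : {y : ℝ | (y : UnitAddCircle) ∈ S α δ a ∩ S α δ b} ∩ Ioc 0 1 ⊆
      ⋃ i ∈ Finset.range a, ({x : ℝ | ∃ m : ℤ, α < (b : ℝ) * x - m ∧ b * x - m < α + δ} ∩
        Ioo ((i + α) / a) ((i + α + δ) / a)) := by
    rintro y ⟨⟨hya, hyb⟩, hy0, hy1⟩
    simp only [S, mem_ofPred_eq, nsmul_coe_mem_arc] at hya hyb
    obtain ⟨m, hm1, hm2⟩ := hya
    have hay0 : 0 < (a : ℝ) * y := by positivity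
    have hay1 : (a : ℝ) * y ≤ a := by nlinarith
    have hm0 : (-1 : ℝ) < m := by linarith
    have hm0' : 0 ≤ m := by
      have : (-1 : ℤ) < m := by exact_mod_cast hm0
      omega
    obtain ⟨i, rfl⟩ := Int.eq_ofNat_of_zero_le hm0'
    have hia : (i : ℝ) < a := by
      push_cast at hm1
      linarith
    simp only [mem_iUnion, exists_prop]
    refine ⟨i, ?_, hyb, ?_, ?_⟩
    · rw [Finset.mem_range]; exact_mod_cast hia
    · rw [div_lt_iff₀ ha']; push_cast at hm1; linarith
    · rw [lt_div_iff₀ ha']; push_cast at hm2; linarith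
  have hle : ∀ i ∈ Finset.range a, volume.real
      ({x : ℝ | ∃ m : ℤ, α < (b : ℝ) * x - m ∧ b * x - m < α + δ} ∩
        Ioo (((i : ℝ) + α) / a) ((i + α + δ) / a)) ≤ δ / a * δ + 2 * δ / b := by
    intro i _
    have huv : ((i : ℝ) + α) / a ≤ (i + α + δ) / a := by
      apply div_le_div_of_nonneg_right _ ha'.le
      linarith
    refine (volume_interval_hit hδ (by linarith) huv hb').trans (le_of_eq ?_)
    have : ((i : ℝ) + α + δ) / a - (i + α) / a = δ / a := by field_simp; ring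
    rw [this]
  have hfin : volume (⋃ i ∈ Finset.range a,
      ({x : ℝ | ∃ m : ℤ, α < (b : ℝ) * x - m ∧ b * x - m < α + δ} ∩
        Ioo (((i : ℝ) + α) / a) ((i + α + δ) / a))) ≠ ⊤ := by
    refine (measure_biUnion_finset_le _ _).trans_lt ?_ |>.ne
    refine ENNReal.sum_lt_top.2 fun i _ => ?_
    refine (measure_mono inter_subset_right).trans_lt ?_
    rw [Real.volume_Ioo]; exact ENNReal.ofReal_lt_top
  refine (measureReal_mono hsub hfin).trans ?_
  refine (measureReal_biUnion_finset_le _ _).trans ?_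
  refine (Finset.sum_le_sum hle).trans ?_
  rw [Finset.sum_const, nsmul_eq_mul, Finset.card_range]
  apply le_of_eq
  field_simp

/-- near multipliers give disjoint sets. -/
lemma S_disjoint {C g a b : ℕ} {δ : ℝ} (hδ : 0 ≤ δ) (hδC : δ * (C * (C + 1)) ≤ 1)
    (hab : a < b) (hbC : b ≤ C) :
    S (1 / (C + 1)) δ (g * a) ∩ S (1 / (C + 1)) δ (g * b) = ∅ := by
  rw [Set.eq_empty_iff_forall_notMem]
  rintro x ⟨hxa, hxb⟩
  induction x using QuotientAddGroup.induction_on with
  | H y =>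
    simp only [S, mem_ofPred_eq] at hxa hxb
    have hxa' := nsmul_coe_mem_arc.1 hxa
    have hxb' := nsmul_coe_mem_arc.1 hxb
    obtain ⟨m, hm1, hm2⟩ := hxa'
    obtain ⟨k, hk1, hk2⟩ := hxb'
    push_cast at hm1 hm2 hk1 hk2
    have hC : (0 : ℝ) < C + 1 := by positivity
    set z : ℝ := g * y with hz
    have e1 : (g : ℝ) * a * y = a * z := by rw [hz]; ring
    have e2 : (g : ℝ) * b * y = b * z := by rw [hz]; ring
    rw [e1] at hm1 hm2
    rw [e2] at hk1 hk2
    -- `t = a k - b m`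
    have ha0 : (0 : ℝ) ≤ a := by positivity
    have hb0 : (0 : ℝ) < b := by
      have : 0 < b := by omega
      exact_mod_cast this
    have hbC' : (b : ℝ) ≤ C := by exact_mod_cast hbC
    have haC' : (a : ℝ) < C := by
      have : a < C := by omega
      exact_mod_cast this
    have hCp : (0 : ℝ) < C := by linarith
    set A : ℝ := 1 / ((C : ℝ) + 1) with hA
    have hAC : A * (C + 1) = 1 := by rw [hA]; field_simp
    -- (b - a) A - t in (-δ C, δ C)
    have h1 : (b : ℝ) * (a * z - m) - a * (b * z - k) = a * k - b * m := by ring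
    have h2 : (a * k - b * m : ℝ) < b * (A + δ) - a * A := by
      rw [← h1]
      have := mul_lt_mul_of_pos_left hm2 hb0
      have := mul_le_mul_of_nonneg_left hk1.le ha0
      linarith
    have h3 : (b : ℝ) * A - a * (A + δ) < (a * k - b * m : ℝ) := by
      rw [← h1]
      have := mul_lt_mul_of_pos_left hm1 hb0
      have := mul_le_mul_of_nonneg_left hk2.le ha0
      linarith
    have hbδ : (b : ℝ) * δ ≤ C * δ := mul_le_mul_of_nonneg_right hbC' hδ
    have haδ : (a : ℝ) * δ ≤ C * δ := mul_le_mul_of_nonneg_right haC'.le hδ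
    have h4 : (a * k - b * m : ℝ) * (C + 1) < (b - a) + 1 := by
      have := mul_lt_mul_of_pos_right h2 hC
      nlinarith
    have h5 : ((b : ℝ) - a) - 1 < (a * k - b * m : ℝ) * (C + 1) := by
      have := mul_lt_mul_of_pos_right h3 hC
      nlinarith
    have h4' : ((a : ℤ) * k - b * m) * (C + 1) < (b - a) + 1 := by exact_mod_cast h4
    have h5' : ((b : ℤ) - a) - 1 < ((a : ℤ) * k - b * m) * (C + 1) := by exact_mod_cast h5
    have h6 : ((a : ℤ) * k - b * m) * (C + 1) = b - a := by omega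
    have h7 : (0 : ℤ) < b - a := by omega
    have h8 : (b : ℤ) - a < C + 1 := by omega
    have h9 : ((C : ℤ) + 1) ∣ b - a := ⟨_, by rw [mul_comm]; exact h6.symm⟩
    have h10 := Int.le_of_dvd h7 h9
    omega

end Q47Khin
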