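import Mathlib
import Pool.Agent.Q47.Khin.Arc

open MeasureTheory Set Filter Topology

namespace Q47Khin

lemma bonferroni {X : Type*} [MeasurableSpace X] (μ : Measure X) [IsFiniteMeasure μ]
    (S : ℕ → Set X) (hS : ∀ n, MeasurableSet (S n)) (Λ : Finset ℕ) :
    ∑ b ∈ Λ, μ.real (S b) - ∑ b ∈ Λ, ∑ a ∈ Λ with a < b, μ.real (S a ∩ S b) ≤
      μ.real (⋃ b ∈ Λ, S b) := by
  classical
  induction Λ using Finset.induction_on_max with
  | empty => simp
  | insert c s hc ih =>
    have hcs : c ∉ s := fun h => lt_irrefl _ (hc c h)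
    rw [Finset.sum_insert hcs, Finset.sum_insert hcs]
    have e1 : (insert c s).filter (· < c) = s := by
      ext a
      simp only [Finset.mem_filter, Finset.mem_insert]
      constructor
      · rintro ⟨h | h, h2⟩
        · omega
        · exact h
      · intro h; exact ⟨Or.inr h, hc a h⟩
    have e2 : ∀ b ∈ s, (insert c s).filter (· < b) = s.filter (· < b) := by
      intro b hb
      ext a
      simp only [Finset.mem_filter, Finset.mem_insert]
      constructor
      · rintro ⟨h | h, h2⟩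
        · have := hc b hb; omega
        · exact ⟨h, h2⟩
      · rintro ⟨h, h2⟩; exact ⟨Or.inr h, h2⟩
    rw [e1]
    have e3 : ∑ b ∈ s, ∑ a ∈ (insert c s).filter (· < b), μ.real (S a ∩ S b) =
        ∑ b ∈ s, ∑ a ∈ s.filter (· < b), μ.real (S a ∩ S b) :=
      Finset.sum_congr rfl fun b hb => by rw [e2 b hb]
    rw [e3]
    have e4 : (⋃ b ∈ insert c s, S b) = S c ∪ ⋃ b ∈ s, S b := by
      rw [Finset.set_biUnion_insert]
    rw [e4]
    have hm : MeasurableSet (⋃ b ∈ s, S b) := Finset.measurableSet_biUnion _ fun b _ => hS b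
    have h5 := measureReal_union_add_inter (μ := μ) (s := S c) (t := ⋃ b ∈ s, S b) hm
      (measure_ne_top _ _) (measure_ne_top _ _)
    have h6 : μ.real (S c ∩ ⋃ b ∈ s, S b) ≤ ∑ a ∈ s, μ.real (S a ∩ S c) := by
      have : (S c ∩ ⋃ b ∈ s, S b) = ⋃ b ∈ s, (S b ∩ S c) := by
        ext x
        simp only [mem_inter_iff, mem_iUnion, exists_prop]
        constructor
        · rintro ⟨h, b, hb, hx⟩; exact ⟨b, hb, hx, h⟩
        · rintro ⟨b, hb, hx, h⟩; exact ⟨h, b, hb, hx⟩
      rw [this]
      exact measureReal_biUnion_finset_le _ _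
    linarith

lemma geom_filter (c X : ℝ) (hc : 0 < c) (s : Finset ℕ) (h : ∀ n ∈ s, c * 2 ^ n ≤ X)
    (hX : 0 ≤ X) : ∑ n ∈ s, c * (2 : ℝ) ^ n ≤ 2 * X := by
  rcases s.eq_empty_or_nonempty with rfl | hs
  · simpa using hX
  set N := s.max' hs
  have h1 : ∑ n ∈ s, c * (2 : ℝ) ^ n ≤ ∑ n ∈ Finset.range (N + 1), c * (2 : ℝ) ^ n := by
    apply Finset.sum_le_sum_of_subset_of_nonneg
    · intro n hn
      rw [Finset.mem_range]
      have := s.le_max' n hn
      omega
    · intros; positivity
  refine h1.trans ?_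
  rw [← Finset.mul_sum, geom_sum_eq (by norm_num)]
  have h2 := h N (s.max'_mem hs)
  have h3 : (2 : ℝ) ^ (N + 1) = 2 * 2 ^ N := by ring
  rw [h3]
  have : c * ((2 * 2 ^ N - 1) / (2 - 1)) = 2 * (c * 2 ^ N) - c := by ring
  rw [this]
  linarith

/-- the multiplier set. -/
def Lam (P K M L : ℕ) : Finset ℕ :=
  (Finset.range K ×ˢ Finset.Ico M (M + L)).image fun q => P * 3 ^ q.1 * 2 ^ q.2

lemma Lam_inj {P : ℕ} (hP : 0 < P) : Function.Injective fun q : ℕ × ℕ => P * 3 ^ q.1 * 2 ^ q.2 := by
  rintro ⟨k, n⟩ ⟨k', n'⟩ h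
  simp only [mul_assoc] at h
  have h := Nat.eq_of_mul_eq_mul_left hP h
  have h3 : ∀ k n : ℕ, (3 ^ k * 2 ^ n).factorization 3 = k := by
    intro k n
    rw [Nat.factorization_mul (by positivity) (by positivity)]
    have h32 : Nat.factorization 2 3 = 0 := Nat.factorization_eq_zero_of_not_dvd (by norm_num)
    have h33 : Nat.factorization 3 3 = 1 := Nat.Prime.factorization_self (by norm_num)
    simp [Nat.factorization_pow, h32, h33]
  have h2 : ∀ k n : ℕ, (3 ^ k * 2 ^ n).factorization 2 = n := by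
    intro k n
    rw [Nat.factorization_mul (by positivity) (by positivity)]
    have h32 : Nat.factorization 3 2 = 0 := Nat.factorization_eq_zero_of_not_dvd (by norm_num)
    have h33 : Nat.factorization 2 2 = 1 := Nat.Prime.factorization_self (by norm_num)
    simp [Nat.factorization_pow, h32, h33]
  have e1 := h3 k n
  have e2 := h3 k' n'
  have e3 := h2 k n
  have e4 := h2 k' n'
  rw [h] at e1 e3
  ext
  · simp only; rw [← e1, e2]
  · simp only; rw [← e3, e4]

lemma card_Lam {P : ℕ} (hP : 0 < P) (K M L : ℕ) : (Lam P K M L).card = K * L := by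
  unfold Lam
  rw [Finset.card_image_of_injective _ (Lam_inj hP)]
  simp

lemma sum_Lam_far {P : ℕ} (hP : 0 < P) {K : ℕ} (hK : 0 < K) (M L : ℕ) (b : ℕ) :
    ∑ a ∈ Lam P K M L with 16 * K * a ≤ b, (a : ℝ) ≤ b / 8 := by
  classical
  have hK' : (0 : ℝ) < K := by exact_mod_cast hK
  have hP' : (0 : ℝ) < P := by exact_mod_cast hP
  rw [Finset.sum_filter]
  unfold Lam
  rw [Finset.sum_image (fun x _ y _ h => Lam_inj hP h)]
  rw [Finset.sum_product]
  have hk : ∀ k ∈ Finset.range K, ∑ n ∈ Finset.Ico M (M + L),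
      (if 16 * K * (P * 3 ^ k * 2 ^ n) ≤ b then ((P * 3 ^ k * 2 ^ n : ℕ) : ℝ) else 0) ≤
        2 * (b / (16 * K)) := by
    intro k _
    rw [← Finset.sum_filter]
    have := geom_filter (P * 3 ^ k : ℝ) (b / (16 * K)) (by positivity)
      ((Finset.Ico M (M + L)).filter fun n => 16 * K * (P * 3 ^ k * 2 ^ n) ≤ b) ?_ (by positivity)
    · push_cast
      exact this
    · intro n hn
      rw [Finset.mem_filter] at hn
      rw [le_div_iff₀ (by positivity)]
      have := hn.2
      have h : ((16 * K * (P * 3 ^ k * 2 ^ n) : ℕ) : ℝ) ≤ b := by exact_mod_cast this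
      push_cast at h
      linarith
  refine (Finset.sum_le_sum hk).trans ?_
  rw [Finset.sum_const, Finset.card_range, nsmul_eq_mul]
  apply le_of_eq
  field_simp
  ring

lemma near_disjoint {P : ℕ} (hP : 0 < P) {K : ℕ} (hK : 0 < K) {M L : ℕ} {δ : ℝ} (hδ : 0 ≤ δ)
    {C : ℕ} (hC : C = 16 * K * 3 ^ K)
    (hδC : δ * (C * (C + 1)) ≤ 1) {a b : ℕ} (ha : a ∈ Lam P K M L) (hb : b ∈ Lam P K M L)
    (hab : a < b) (hba : b < 16 * K * a) :
    S (1 / (C + 1)) δ a ∩ S (1 / (C + 1)) δ b = ∅ := by
  unfold Lam at ha hb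
  simp only [Finset.mem_image, Finset.mem_product, Finset.mem_range, Finset.mem_Ico,
    Prod.exists] at ha hb
  obtain ⟨k, n, ⟨hk, hn1, hn2⟩, rfl⟩ := ha
  obtain ⟨k', n', ⟨hk', hn1', hn2'⟩, rfl⟩ := hb
  have h3k : 3 ^ k ≤ 3 ^ K := Nat.pow_le_pow_right (by norm_num) hk.le
  have h3k' : 3 ^ k' ≤ 3 ^ K := Nat.pow_le_pow_right (by norm_num) hk'.le
  rcases le_or_gt n n' with hnn | hnn
  · obtain ⟨d, rfl⟩ := Nat.exists_eq_add_of_le hnn
    have e1 : P * 3 ^ k * 2 ^ n = (P * 2 ^ n) * 3 ^ k := by ring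
    have e2 : P * 3 ^ k' * 2 ^ (n + d) = (P * 2 ^ n) * (3 ^ k' * 2 ^ d) := by ring
    rw [e1, e2] at hab hba ⊢
    have hg : 0 < P * 2 ^ n := by positivity
    apply S_disjoint hδ hδC
    · exact lt_of_mul_lt_mul_left hab (Nat.zero_le _)
    · have : (P * 2 ^ n) * (3 ^ k' * 2 ^ d) < (P * 2 ^ n) * (16 * K * 3 ^ k) := by
        calc _ < _ := hba
          _ = _ := by ring
      have h4 := lt_of_mul_lt_mul_left this (Nat.zero_le _)
      rw [hC]
      refine h4.le.trans ?_
      exact Nat.mul_le_mul_left _ h3k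
  · obtain ⟨d, rfl⟩ := Nat.exists_eq_add_of_lt hnn
    have e1 : P * 3 ^ k * 2 ^ (n' + d + 1) = (P * 2 ^ n') * (3 ^ k * 2 ^ (d + 1)) := by ring
    have e2 : P * 3 ^ k' * 2 ^ n' = (P * 2 ^ n') * 3 ^ k' := by ring
    rw [e1, e2] at hab hba ⊢
    apply S_disjoint hδ hδC
    · exact lt_of_mul_lt_mul_left hab (Nat.zero_le _)
    · rw [hC]
      calc 3 ^ k' ≤ 3 ^ K := h3k'
        _ = 1 * 3 ^ K := (one_mul _).symm
        _ ≤ 16 * K * 3 ^ K := Nat.mul_le_mul_right _ (by omega)

/-- **Sweeping sets.**  -/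
theorem exists_sweep (K M : ℕ) (hK : 0 < K) :
    ∃ E : Set UnitAddCircle, IsOpen E ∧ volume.real E ≤ 1 / K ∧
      ∀ P : ℕ, 0 < P → ∃ G : Set UnitAddCircle, MeasurableSet G ∧ 1 / 8 ≤ volume.real G ∧
        ∀ x ∈ G, ∃ k < K, ∀ j ≤ M, (P * 3 ^ k * 2 ^ j) • x ∈ E := by
  classical
  set C : ℕ := 16 * K * 3 ^ K with hC
  have hC1 : 48 ≤ C := by
    have h1 : 3 ^ 1 ≤ 3 ^ K := Nat.pow_le_pow_right (by norm_num) hK
    rw [hC]
    calc 48 = 16 * 1 * 3 ^ 1 := by norm_num
      _ ≤ 16 * K * 3 ^ K := Nat.mul_le_mul (Nat.mul_le_mul_left _ hK) h1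
  set L : ℕ := C * (C + 1) + M with hL
  have hLpos : 0 < L := by positivity
  have hLM : M ≤ L := by omega
  have hK' : (0 : ℝ) < K := by exact_mod_cast hK
  have hK1 : (1 : ℝ) ≤ K := by exact_mod_cast hK
  have hL' : (0 : ℝ) < L := by exact_mod_cast hLpos
  set δ : ℝ := 1 / (2 * K * L) with hδ
  have hδ0 : 0 < δ := by positivity
  have hCL : (C : ℝ) * (C + 1) ≤ L := by rw [hL]; push_cast; linarith [Nat.cast_nonneg (α := ℝ) M]
  have hδC : δ * (C * (C + 1)) ≤ 1 := by
    rw [hδ, one_div, inv_mul_le_iff₀ (by positivity)]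
    nlinarith
  have hC' : (48 : ℝ) ≤ C := by exact_mod_cast hC1
  set α : ℝ := 1 / ((C : ℝ) + 1) with hα
  have hα0 : 0 < α := by positivity
  have hαle : α ≤ 1 / 2 := by
    rw [hα]
    apply one_div_le_one_div_of_le <;> linarith
  have hδle : δ ≤ 1 / 2 := by
    rw [hδ]
    apply one_div_le_one_div_of_le (by norm_num)
    have : (1 : ℝ) ≤ L := by exact_mod_cast hLpos
    nlinarith
  have h1 : α + δ ≤ 1 := by linarith
  refine ⟨⋃ n ∈ Finset.range (M + L), S α δ (2 ^ n), ?_, ?_, ?_⟩
  · exact isOpen_biUnion fun n _ => isOpen_S _ _ _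
  · refine (measureReal_biUnion_finset_le _ _).trans ?_
    have : ∀ n ∈ Finset.range (M + L), volume.real (S α δ (2 ^ n)) = δ :=
      fun n _ => volume_S hα0.le hδ0.le h1 (by positivity)
    rw [Finset.sum_congr rfl this, Finset.sum_const, Finset.card_range, nsmul_eq_mul, hδ]
    rw [mul_one_div, div_le_div_iff₀ (by positivity) hK']
    have hLM' : (M : ℝ) ≤ L := by exact_mod_cast hLM
    push_cast
    nlinarith
  · intro P hP
    refine ⟨⋃ b ∈ Lam P K M L, S α δ b, ?_, ?_, ?_⟩
    · exact Finset.measurableSet_biUnion _ fun b _ => (isOpen_S _ _ _).measurableSet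
    · have hB := bonferroni (volume : Measure UnitAddCircle) (S α δ)
        (fun n => (isOpen_S _ _ _).measurableSet) (Lam P K M L)
      refine le_trans ?_ hB
      have hpos : ∀ b ∈ Lam P K M L, 0 < b := by
        intro b hb
        unfold Lam at hb
        simp only [Finset.mem_image, Finset.mem_product, Finset.mem_range, Finset.mem_Ico,
          Prod.exists] at hb
        obtain ⟨k, n, -, rfl⟩ := hb
        positivity
      have hs1 : ∑ b ∈ Lam P K M L, volume.real (S α δ b) = 1 / 2 := by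
        have : ∀ n ∈ Lam P K M L, volume.real (S α δ n) = δ :=
          fun n hn => volume_S hα0.le hδ0.le h1 (hpos n hn)
        rw [Finset.sum_congr rfl this, Finset.sum_const, card_Lam hP, nsmul_eq_mul, hδ]
        push_cast
        field_simp
      have hs2 : ∀ b ∈ Lam P K M L, ∑ a ∈ Lam P K M L with a < b, volume.real (S α δ a ∩ S α δ b) ≤
          (K * L) * δ ^ 2 + δ / 4 := by
        intro b hb
        have hbpos : (0 : ℝ) < b := by exact_mod_cast hpos b hb
        have hterm : ∀ a ∈ (Lam P K M L).filter (· < b), volume.real (S α δ a ∩ S α δ b) ≤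
            δ ^ 2 + (if 16 * K * a ≤ b then 2 * δ * (a / b) else 0) := by
          intro a ha
          rw [Finset.mem_filter] at ha
          by_cases hc : 16 * K * a ≤ b
          · rw [if_pos hc]
            exact volume_S_inter hα0 hδ0.le h1 (hpos a ha.1) (hpos b hb)
          · rw [if_neg hc]
            push Not at hc
            have := near_disjoint hP hK hδ0.le hC hδC ha.1 hb ha.2 hc
            rw [← hα] at this
            rw [this]
            simp only [measureReal_empty, add_zero]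
            positivity
        refine (Finset.sum_le_sum hterm).trans ?_
        rw [Finset.sum_add_distrib]
        apply add_le_add
        · rw [Finset.sum_const, nsmul_eq_mul]
          apply mul_le_mul_of_nonneg_right _ (by positivity)
          have : ((Lam P K M L).filter (· < b)).card ≤ K * L := by
            rw [← card_Lam hP K M L]
            exact Finset.card_filter_le _ _
          exact_mod_cast this
        · calc ∑ a ∈ (Lam P K M L).filter (· < b), (if 16 * K * a ≤ b then 2 * δ * ((a : ℝ) / b) else 0)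
              ≤ ∑ a ∈ Lam P K M L, (if 16 * K * a ≤ b then 2 * δ * ((a : ℝ) / b) else 0) := by
                apply Finset.sum_le_sum_of_subset_of_nonneg (Finset.filter_subset _ _)
                intro i _ _
                split_ifs <;> positivity
            _ = (2 * δ / b) * ∑ a ∈ Lam P K M L with 16 * K * a ≤ b, (a : ℝ) := by
                rw [Finset.sum_filter, Finset.mul_sum]
                apply Finset.sum_congr rfl
                intro a _
                split_ifs
                · ring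
                · ring
            _ ≤ (2 * δ / b) * (b / 8) :=
                mul_le_mul_of_nonneg_left (sum_Lam_far hP hK M L b) (by positivity)
            _ = δ / 4 := by field_simp; norm_num
      have hs3 : ∑ b ∈ Lam P K M L, ∑ a ∈ Lam P K M L with a < b,
          volume.real (S α δ a ∩ S α δ b) ≤ 3 / 8 := by
        refine (Finset.sum_le_sum hs2).trans ?_
        rw [Finset.sum_const, card_Lam hP, nsmul_eq_mul]
        apply le_of_eq
        rw [hδ]
        push_cast
        field_simp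
        norm_num
      rw [hs1]
      linarith
    · intro x hx
      simp only [mem_iUnion, exists_prop] at hx
      obtain ⟨b, hb, hx⟩ := hx
      unfold Lam at hb
      simp only [Finset.mem_image, Finset.mem_product, Finset.mem_range, Finset.mem_Ico,
        Prod.exists] at hb
      obtain ⟨k, n, ⟨hk, hn1, hn2⟩, rfl⟩ := hb
      refine ⟨k, hk, fun j hj => ?_⟩
      simp only [mem_iUnion, exists_prop, Finset.mem_range]
      refine ⟨n - j, by omega, ?_⟩
      have hjn : j ≤ n := by omega
      have : 2 ^ (n - j) • (P * 3 ^ k * 2 ^ j) • x = (P * 3 ^ k * 2 ^ n) • x := by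
        rw [smul_smul]
        congr 1
        have : 2 ^ n = 2 ^ (n - j) * 2 ^ j := by rw [← pow_add]; congr 1; omega
        rw [this]; ring
      change 2 ^ (n - j) • (P * 3 ^ k * 2 ^ j) • x ∈ arc α δ
      rw [this]
      exact hx

end Q47Khin
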