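import Mathlib
import Pool.Agent.Q47.Khin.Sweep

open MeasureTheory Set Filter Topology

namespace Q47Khin

/-- `lam` is an `L^q`-Khintchin sequence: for every `f ∈ L^q(ℝ/ℤ)` the averages
`(1/N) ∑_{n < N} f (lam n • x)` converge to `∫ f` for almost every `x`. -/
def IsLpKhintchin (q : ENNReal) (lam : ℕ → ℕ) : Prop :=
  ∀ f : UnitAddCircle → ℂ, MemLp f q (volume : Measure UnitAddCircle) →
    ∀ᵐ x : UnitAddCircle,
      Tendsto (fun N : ℕ => (1 / (N : ℂ)) * ∑ n ∈ Finset.range N, f (lam n • x)) atTop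
        (𝓝 (∫ y : UnitAddCircle, f y))

/-- The partial products `ω 0, ω 1 * ω 0, ω 2 * ω 1 * ω 0, …`. -/
def prodSeq (ω : ℕ → ℕ) (t : ℕ) : ℕ := ∏ i ∈ Finset.range (t + 1), ω i

/-- `lam` sweeps at level `m`. -/
def Sweep (m : ℕ) (lam : ℕ → ℕ) : Prop :=
  ∃ E : Set UnitAddCircle, IsOpen E ∧ volume.real E ≤ 1 / 2 ^ (m + 3) ∧
    ∃ T : ℕ, ∃ G : Set UnitAddCircle, MeasurableSet G ∧ 1 / 8 ≤ volume.real G ∧
      ∀ x ∈ G, ∃ N, m ≤ N ∧ 0 < N ∧ N ≤ T ∧ ∃ A ⊆ Finset.range N, N ≤ 2 * A.card ∧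
        ∀ t ∈ A, lam t • x ∈ E

lemma blocks (p : ℕ → Prop) (h2 : p 2) (h3 : p 3) (ω : ℕ → ℕ) (hω : ∀ i, p (ω i)) (l K : ℕ) :
    ∃ (ω' : ℕ → ℕ) (T c : ℕ), (∀ i, p (ω' i)) ∧ (∀ i < l, ω' i = ω i) ∧ l ≤ T ∧
      (∏ i ∈ Finset.range T, ω' i = (∏ i ∈ Finset.range l, ω i) * 3 ^ K * 2 ^ c) ∧
      ∀ k < K, ∃ N, l ≤ N ∧ 0 < N ∧ N ≤ T ∧ ∃ A ⊆ Finset.range N, N ≤ 2 * A.card ∧
        ∀ t ∈ A, ∃ j ≤ c, prodSeq ω' t = (∏ i ∈ Finset.range l, ω i) * 3 ^ k * 2 ^ j := by
  induction K with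
  | zero => exact ⟨ω, l, 0, hω, fun _ _ => rfl, le_rfl, by simp, by simp⟩
  | succ K ih =>
    obtain ⟨ω', T, c, hp, hl, hT, hprod, hk⟩ := ih
    set ω'' : ℕ → ℕ := fun t => if t < T then ω' t else if t = 2 * T + 1 then 3 else 2 with hω''
    have hagree : ∀ t < T, ω'' t = ω' t := fun t ht => by simp [hω'', ht]
    have h2' : ∀ d ≤ T, ω'' (T + d) = 2 := by
      intro d hd
      simp only [hω'']
      rw [if_neg (by omega), if_neg (by omega)]
    have hpre : ∀ s ≤ T, ∏ i ∈ Finset.range s, ω'' i = ∏ i ∈ Finset.range s, ω' i := by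
      intro s hs
      apply Finset.prod_congr rfl
      intro i hi
      rw [Finset.mem_range] at hi
      exact hagree i (by omega)
    have hblock : ∀ d ≤ T + 1, ∏ i ∈ Finset.range (T + d), ω'' i =
        (∏ i ∈ Finset.range l, ω i) * 3 ^ K * 2 ^ (c + d) := by
      intro d hd
      induction d with
      | zero => rw [Nat.add_zero, hpre T le_rfl, hprod, Nat.add_zero]
      | succ d ihd =>
        rw [← Nat.add_assoc, Finset.prod_range_succ, ihd (by omega), h2' d (by omega)]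
        ring
    refine ⟨ω'', 2 * T + 2, c + (T + 1), ?_, ?_, by omega, ?_, ?_⟩
    · intro i
      simp only [hω'']
      split_ifs
      · exact hp i
      · exact h3
      · exact h2
    · intro i hi
      rw [hagree i (by omega), hl i hi]
    · rw [Finset.prod_range_succ]
      have e1 : 2 * T + 1 = T + (T + 1) := by ring
      have e2 : ω'' (2 * T + 1) = 3 := by
        simp only [hω'']
        rw [if_neg (by omega), if_pos trivial]
      rw [e2, e1, hblock (T + 1) le_rfl]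
      ring
    · intro k hkK
      rcases Nat.lt_succ_iff_lt_or_eq.1 hkK with h | rfl
      · obtain ⟨N, hN1, hN2, hN3, A, hA1, hA2, hA3⟩ := hk k h
        refine ⟨N, hN1, hN2, by omega, A, hA1, hA2, fun t ht => ?_⟩
        obtain ⟨j, hj, hj2⟩ := hA3 t ht
        refine ⟨j, by omega, ?_⟩
        rw [← hj2]
        unfold prodSeq
        have := Finset.mem_range.1 (hA1 ht)
        exact hpre (t + 1) (by omega)
      · refine ⟨2 * T + 1, by omega, by omega, by omega, Finset.Ico T (2 * T + 1), ?_, ?_, ?_⟩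
        · intro t ht
          rw [Finset.mem_Ico] at ht
          rw [Finset.mem_range]
          omega
        · rw [Nat.card_Ico]; omega
        · intro t ht
          rw [Finset.mem_Ico] at ht
          obtain ⟨d, rfl⟩ := Nat.exists_eq_add_of_le ht.1
          refine ⟨c + (d + 1), by omega, ?_⟩
          unfold prodSeq
          rw [Nat.add_assoc, hblock (d + 1) (by omega)]

lemma sweep_dense (p : ℕ → Prop) (h2 : p 2) (h3 : p 3) (hpos : ∀ n, p n → 0 < n)
    (ω : ℕ → ℕ) (hω : ∀ i, p (ω i)) (l m : ℕ) :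
    ∃ ω' : ℕ → ℕ, (∀ i, p (ω' i)) ∧ (∀ i < l, ω' i = ω i) ∧ Sweep m (prodSeq ω') := by
  obtain ⟨ω', T, c, hp, hl, hT, hprod, hk⟩ := blocks p h2 h3 ω hω (max l m) (2 ^ (m + 3))
  obtain ⟨E, hE1, hE2, hE3⟩ := exists_sweep (2 ^ (m + 3)) c (by positivity)
  have hP : 0 < ∏ i ∈ Finset.range (max l m), ω i :=
    Finset.prod_pos fun i _ => hpos _ (hω i)
  obtain ⟨G, hG1, hG2, hG3⟩ := hE3 _ hP
  refine ⟨ω', hp, fun i hi => hl i (lt_of_lt_of_le hi (le_max_left _ _)), E, hE1, ?_, T, G, hG1,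
    hG2, ?_⟩
  · simpa using hE2
  · intro x hx
    obtain ⟨k, hkK, hk2⟩ := hG3 x hx
    obtain ⟨N, hN1, hN2, hN3, A, hA1, hA2, hA3⟩ := hk k hkK
    refine ⟨N, (le_max_right _ _).trans hN1, hN2, hN3, A, hA1, hA2, fun t ht => ?_⟩
    obtain ⟨j, hj, hj2⟩ := hA3 t ht
    rw [hj2]
    exact hk2 j hj

lemma sweep_congr {m : ℕ} {ω : ℕ → ℕ} (h : Sweep m (prodSeq ω)) :
    ∃ T : ℕ, ∀ ω' : ℕ → ℕ, (∀ i < T, ω' i = ω i) → Sweep m (prodSeq ω') := by
  obtain ⟨E, hE1, hE2, T, G, hG1, hG2, hG3⟩ := h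
  refine ⟨T, fun ω' hω' => ⟨E, hE1, hE2, T, G, hG1, hG2, fun x hx => ?_⟩⟩
  obtain ⟨N, hN1, hN2, hN3, A, hA1, hA2, hA3⟩ := hG3 x hx
  refine ⟨N, hN1, hN2, hN3, A, hA1, hA2, fun t ht => ?_⟩
  have : prodSeq ω' t = prodSeq ω t := by
    unfold prodSeq
    apply Finset.prod_congr rfl
    intro i hi
    have h1 := Finset.mem_range.1 (hA1 ht)
    have h2 := Finset.mem_range.1 hi
    exact hω' i (by omega)
  rw [this]
  exact hA3 t ht

lemma not_khintchin {lam : ℕ → ℕ} (h : ∀ m, Sweep m lam) (q : ENNReal) :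
    ¬ IsLpKhintchin q lam := by
  classical
  intro hK
  choose E hE1 hE2 T G hG1 hG2 hG3 using h
  set U : Set UnitAddCircle := ⋃ m, E m with hU
  have hUm : MeasurableSet U := (isOpen_iUnion hE1).measurableSet
  -- the volume of `U`
  have hUvol : volume.real U ≤ 1 / 4 := by
    have h1 : volume U ≤ ∑' m, volume (E m) := measure_iUnion_le _
    have h2 : ∀ m, volume (E m) ≤ ENNReal.ofReal (1 / 8 * (1 / 2) ^ m) := by
      intro m
      rw [← ENNReal.ofReal_toReal (measure_ne_top volume (E m))]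
      apply ENNReal.ofReal_le_ofReal
      refine (hE2 m).trans (le_of_eq ?_)
      rw [pow_add, one_div_pow]
      field_simp
      norm_num
    have h3 : HasSum (fun m : ℕ => (1 / 8 : ℝ) * (1 / 2) ^ m) (1 / 8 * (1 - 1 / 2)⁻¹) :=
      (hasSum_geometric_of_lt_one (by norm_num) (by norm_num)).mul_left _
    have h4 : volume U ≤ ENNReal.ofReal (1 / 4) := by
      refine h1.trans ((ENNReal.tsum_le_tsum h2).trans (le_of_eq ?_))
      rw [← ENNReal.ofReal_tsum_of_nonneg (fun n => by positivity) h3.summable, h3.tsum_eq]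
      norm_num
    unfold Measure.real
    exact ENNReal.toReal_le_of_le_ofReal (by norm_num) h4
  -- the test function
  set f : UnitAddCircle → ℂ := U.indicator fun _ => (1 : ℂ) with hf
  have hfm : MemLp f q volume := (memLp_const (1 : ℂ)).indicator hUm
  set g : UnitAddCircle → ℝ := U.indicator fun _ => (1 : ℝ) with hg
  have hgm : Measurable g := measurable_const.indicator hUm
  have hfg : ∀ x, f x = ((g x : ℝ) : ℂ) := by
    intro x
    by_cases hx : x ∈ U
    · simp [hf, hg, hx]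
    · simp [hf, hg, hx]
  have hint : ∫ y : UnitAddCircle, f y = ((volume.real U : ℝ) : ℂ) := by
    rw [hf, integral_indicator hUm]
    simp
  have hconv := hK f hfm
  set avg : ℕ → UnitAddCircle → ℝ := fun N x => (1 / (N : ℝ)) * ∑ n ∈ Finset.range N, g (lam n • x)
    with havg
  have hconv' : ∀ᵐ x : UnitAddCircle, Tendsto (fun N => avg N x) atTop (𝓝 (volume.real U)) := by
    filter_upwards [hconv] with x hx
    rw [hint] at hx
    have h1 := (Complex.continuous_re.tendsto _).comp hx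
    rw [Complex.ofReal_re] at h1
    refine h1.congr fun N => ?_
    simp only [Function.comp_apply, havg, hfg]
    have : (1 / (N : ℂ)) * ∑ n ∈ Finset.range N, ((g (lam n • x) : ℝ) : ℂ) =
        (((1 / (N : ℝ)) * ∑ n ∈ Finset.range N, g (lam n • x) : ℝ) : ℂ) := by push_cast; rfl
    rw [this, Complex.ofReal_re]
  have hgnn : ∀ x, 0 ≤ g x := fun x => indicator_nonneg (fun _ _ => zero_le_one) x
  -- the decreasing sets
  set H : ℕ → Set UnitAddCircle := fun m => ⋃ N, ⋃ _ : m ≤ N, {x | 1 / 2 ≤ avg N x} with hH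
  have hHm : ∀ m, MeasurableSet (H m) := by
    intro m
    refine MeasurableSet.iUnion fun N => MeasurableSet.iUnion fun _ => ?_
    apply measurableSet_le measurable_const
    simp only [havg]
    apply Measurable.const_mul
    apply Finset.measurable_sum
    intro n _
    exact hgm.comp (continuous_nsmul (lam n)).measurable
  have hHanti : Antitone H := by
    intro a b hab x hx
    simp only [hH, mem_iUnion] at hx ⊢
    obtain ⟨N, hN, hx⟩ := hx
    exact ⟨N, hab.trans hN, hx⟩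
  have hGH : ∀ m, G m ⊆ H m := by
    intro m x hx
    obtain ⟨N, hN1, hN2, hN3, A, hA1, hA2, hA3⟩ := hG3 m x hx
    simp only [hH, mem_iUnion]
    refine ⟨N, hN1, ?_⟩
    change 1 / 2 ≤ avg N x
    have hN : (0 : ℝ) < N := by exact_mod_cast hN2
    have h1 : (A.card : ℝ) ≤ ∑ n ∈ Finset.range N, g (lam n • x) := by
      calc (A.card : ℝ) = ∑ n ∈ A, (1 : ℝ) := by simp
        _ = ∑ n ∈ A, g (lam n • x) := by
            apply Finset.sum_congr rfl
            intro t ht
            have : lam t • x ∈ U := mem_iUnion.2 ⟨m, hA3 t ht⟩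
            simp [hg, this]
        _ ≤ ∑ n ∈ Finset.range N, g (lam n • x) :=
            Finset.sum_le_sum_of_subset_of_nonneg hA1 fun _ _ _ => hgnn _
    have h2 : (N : ℝ) ≤ 2 * A.card := by exact_mod_cast hA2
    simp only [havg]
    rw [one_div_mul_eq_div, le_div_iff₀ hN]
    linarith
  have hHvol : ∀ m, ENNReal.ofReal (1 / 8) ≤ volume (H m) := by
    intro m
    refine le_trans ?_ (measure_mono (hGH m))
    exact ENNReal.ofReal_le_of_le_toReal (hG2 m)
  have hlim := tendsto_measure_iInter_atTop (μ := (volume : Measure UnitAddCircle))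
    (fun m => (hHm m).nullMeasurableSet) hHanti ⟨0, measure_ne_top _ _⟩
  have hge : ENNReal.ofReal (1 / 8) ≤ volume (⋂ m, H m) := ge_of_tendsto' hlim hHvol
  have hzero : volume (⋂ m, H m) = 0 := by
    rw [measure_eq_zero_iff_ae_notMem]
    filter_upwards [hconv'] with x hx hmem
    have h1 : ∀ᶠ N in atTop, avg N x < 1 / 2 :=
      hx.eventually_lt_const (by linarith)
    obtain ⟨N0, hN0⟩ := eventually_atTop.1 h1
    have h2 := mem_iInter.1 hmem N0
    simp only [hH, mem_iUnion] at h2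
    obtain ⟨N, hN, h3⟩ := h2
    have h3' : 1 / 2 ≤ avg N x := h3
    linarith [hN0 N hN]
  rw [hzero] at hge
  simp only [nonpos_iff_eq_zero, ENNReal.ofReal_eq_zero] at hge
  norm_num at hge

/-- General meagreness theorem. -/
theorem meagre (p : ℕ → Prop) (h2 : p 2) (h3 : p 3) (hpos : ∀ n, p n → 0 < n) (q : ENNReal) :
    IsMeagre {ω : ℕ → {n : ℕ // p n} | IsLpKhintchin q (prodSeq fun n => (ω n : ℕ))} := by
  classical
  set U : ℕ → Set (ℕ → {n : ℕ // p n}) := fun m => {ω | Sweep m (prodSeq fun n => (ω n : ℕ))}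
    with hU
  have hbasis := PiNat.isTopologicalBasis_cylinders (fun _ : ℕ => {n : ℕ // p n})
  have hopen : ∀ m, IsOpen (U m) := by
    intro m
    rw [hbasis.isOpen_iff]
    intro ω hω
    obtain ⟨T, hT⟩ := sweep_congr hω
    refine ⟨PiNat.cylinder ω T, ⟨ω, T, rfl⟩, PiNat.self_mem_cylinder _ _, fun ω' hω' => ?_⟩
    apply hT
    intro i hi
    have := hω' i hi
    rw [this]
  have hdense : ∀ m, Dense (U m) := by
    intro m
    rw [hbasis.dense_iff]
    rintro o ⟨ω, T, rfl⟩ -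
    obtain ⟨ω', hp, hag, hsw⟩ := sweep_dense p h2 h3 hpos (fun n => (ω n : ℕ))
      (fun i => (ω i).2) T m
    refine ⟨fun n => ⟨ω' n, hp n⟩, ?_, hsw⟩
    intro i hi
    exact Subtype.ext (hag i hi)
  have hres : (⋂ m, U m) ∈ residual (ℕ → {n : ℕ // p n}) :=
    countable_iInter_mem.2 fun m => residual_of_dense_open (hopen m) (hdense m)
  change _ᶜ ∈ residual _
  refine mem_of_superset hres fun ω hω => ?_
  exact not_khintchin (fun m => mem_iInter.1 hω m) q

end Q47Khin
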